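import Mathlib
import Pool.Agent.Lib_helper91.LowE

set_option autoImplicit false

namespace Pool.Agent.Results.MP_0ddcb0_nt.LowerLevelSetAPs

open Finset Filter Topology Asymptotics
open scoped Pointwise

lemma eventually_poly_le (K c : ℝ) (hc : 0 < c) :
    ∀ᶠ N : ℕ in atTop, K * (Real.log N) ^ 2 ≤ Real.exp ((Real.log N) ^ c) := by
  have hlog : Tendsto (fun N : ℕ => Real.log (N : ℝ)) atTop atTop :=
    Real.tendsto_log_atTop.comp tendsto_natCast_atTop_atTop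
  have hz : Tendsto (fun N : ℕ => (Real.log (N : ℝ)) ^ c) atTop atTop :=
    (tendsto_rpow_atTop hc).comp hlog
  have h1 := (isLittleO_rpow_exp_atTop (2 / c)).comp_tendsto hz
  have hK : 0 < 1 / (|K| + 1) := by positivity
  have h2 := h1.bound hK
  filter_upwards [h2, hlog.eventually_ge_atTop 1] with N hN hlogN
  have hl0 : 0 < Real.log (N : ℝ) := by linarith
  simp only [Function.comp] at hN
  rw [← Real.rpow_mul hl0.le, mul_div_cancel₀ _ hc.ne', Real.rpow_two,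
    Real.norm_of_nonneg (by positivity), Real.norm_of_nonneg (Real.exp_pos _).le] at hN
  have h3 : (|K| + 1) * (Real.log N) ^ 2 ≤ Real.exp ((Real.log N) ^ c) := by
    have h4 : 0 < |K| + 1 := by positivity
    calc (|K| + 1) * (Real.log N) ^ 2 ≤ (|K| + 1) * (1 / (|K| + 1) * Real.exp ((Real.log N) ^ c)) :=
          mul_le_mul_of_nonneg_left hN h4.le
      _ = _ := by field_simp
  have h5 : K ≤ |K| + 1 := by linarith [le_abs_self K]
  calc K * (Real.log N) ^ 2 ≤ (|K| + 1) * (Real.log N) ^ 2 := by gcongr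
    _ ≤ _ := h3

/-- The answer to Q1 is negative. For all `c₁, c₂, c₃, c₄ ∈ (0,1)` and every sufficiently large
prime `N` there is `A ⊆ ℤ/N` with `|A| > N exp(-(log N)^c₁)` and
`|A+A| ≤ N (1 - exp(-(log N)^c₂))` such that every arithmetic progression of length
`L ≥ exp((log N)^c₄)` contains a residue with at least `N exp(-(log N)^c₃)` representations as
an ordered sum of two elements of `A`. -/
theorem result (c₁ c₂ c₃ c₄ : ℝ) (hc₁ : 0 < c₁ ∧ c₁ < 1) (hc₂ : 0 < c₂ ∧ c₂ < 1)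
    (hc₃ : 0 < c₃ ∧ c₃ < 1) (hc₄ : 0 < c₄ ∧ c₄ < 1) :
    ∃ N₀ : ℕ, ∀ N : ℕ, N.Prime → N₀ ≤ N → ∃ A : Finset (ZMod N),
      (N : ℝ) * Real.exp (-(Real.log N) ^ c₁) < (A.card : ℝ) ∧
      ((A + A).card : ℝ) ≤ (N : ℝ) * (1 - Real.exp (-(Real.log N) ^ c₂)) ∧
      ∀ (a d : ZMod N) (L : ℕ), d ≠ 0 → 1 ≤ L → L ≤ N →
        Real.exp ((Real.log N) ^ c₄) ≤ (L : ℝ) →
        ∃ i < L, (N : ℝ) * Real.exp (-(Real.log N) ^ c₃) ≤
          (((A ×ˢ A).filter (fun p => p.1 + p.2 = a + (i : ZMod N) * d)).card : ℝ) := by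
  have hlog : Tendsto (fun N : ℕ => Real.log (N : ℝ)) atTop atTop :=
    Real.tendsto_log_atTop.comp tendsto_natCast_atTop_atTop
  have e1 := eventually_poly_le 5 c₁ hc₁.1
  have e2 := eventually_poly_le 10000 c₂ hc₂.1
  have e3 := eventually_poly_le 1000000 c₃ hc₃.1
  have e4 := eventually_poly_le 10000 c₄ hc₄.1
  have e5 := eventually_poly_le 100000000 1 one_pos
  have hev := (hlog.eventually_ge_atTop 1).and (e1.and (e2.and (e3.and (e4.and e5))))
  obtain ⟨N₀, hN₀⟩ := eventually_atTop.mp hev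
  refine ⟨N₀, fun N hNp hN => ?_⟩
  obtain ⟨hl, h1, h2, h3, h4, h5⟩ := hN₀ N hN
  have hNpos : 0 < N := hNp.pos
  have hNr : (0 : ℝ) < N := by exact_mod_cast hNpos
  rw [Real.rpow_one, Real.exp_log hNr] at h5
  set ℓ := Real.log (N : ℝ) with hℓ
  have hll : ℓ ≤ ℓ ^ 2 := by nlinarith
  have hl2 : 1 ≤ ℓ ^ 2 := by nlinarith
  set m := 2 * (Nat.log 2 N + 1) with hm
  have hm1 : 1 ≤ m := by omega
  -- 2^m > N^2
  have hNm : N * N < 2 ^ m := by
    have h6 : N < 2 ^ (Nat.log 2 N + 1) := Nat.lt_pow_succ_log_self (by norm_num) N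
    have h7 : 2 ^ m = 2 ^ (Nat.log 2 N + 1) * 2 ^ (Nat.log 2 N + 1) := by
      rw [hm, ← pow_add]; congr 1; ring
    rw [h7]
    exact Nat.mul_lt_mul'' h6 h6
  -- m ≤ 6 ℓ
  have hmle : (m : ℝ) ≤ 6 * ℓ := by
    have h6 : ((Nat.log 2 N : ℕ) : ℝ) * Real.log 2 ≤ ℓ := by
      have h7 : 2 ^ (Nat.log 2 N) ≤ N := Nat.pow_log_le_self 2 hNpos.ne'
      have h8 : ((2 : ℝ) ^ (Nat.log 2 N)) ≤ N := by exact_mod_cast h7
      have h9 := Real.log_le_log (by positivity) h8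
      rwa [Real.log_pow] at h9
    have h7 : (1 : ℝ) / 2 ≤ Real.log 2 := by
      have := Real.log_two_gt_d9
      linarith
    have h8 : (0 : ℝ) ≤ (Nat.log 2 N : ℕ) := by positivity
    have h9 : ((Nat.log 2 N : ℕ) : ℝ) ≤ 2 * ℓ := by nlinarith
    rw [hm]; push_cast
    linarith
  have hm1r : (1 : ℝ) ≤ m := by exact_mod_cast hm1
  have h7m : (7 * (m : ℝ) + 6) ≤ 78 * ℓ := by linarith
  have hmm : (m : ℝ) * (7 * m + 6) ≤ 468 * ℓ ^ 2 := by
    calc (m : ℝ) * (7 * m + 6) ≤ (6 * ℓ) * (78 * ℓ) := by gcongr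
      _ = _ := by ring
  have hbig : 32768 * m * (7 * m + 6) ≤ N := by
    have : (32768 * (m : ℝ) * (7 * m + 6)) ≤ N := by
      calc 32768 * (m : ℝ) * (7 * m + 6) = 32768 * (m * (7 * m + 6)) := by ring
        _ ≤ 32768 * (468 * ℓ ^ 2) := by gcongr
        _ ≤ 100000000 * ℓ ^ 2 := by nlinarith
        _ ≤ N := h5
    exact_mod_cast this
  have : Fact N.Prime := ⟨hNp⟩
  obtain ⟨A, hA1, hA2, hA3⟩ := Pool.Agent.Lib_helper91.Low.explicit N m hm1 hNm hbig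
  clear hNm hbig hN₀ hev
  clear_value m
  refine ⟨A, ?_, ?_, ?_⟩
  · -- size of A
    have h6 : (N : ℝ) ≤ 4 * A.card := by exact_mod_cast hA1
    have h7 : Real.exp (-ℓ ^ c₁) < 1 / 4 := by
      rw [Real.exp_neg, ← one_div]
      apply one_div_lt_one_div_of_lt (by norm_num)
      nlinarith
    nlinarith
  · -- size of A + A
    obtain ⟨D, hD⟩ : ∃ D : ℕ, D = 8 * (7 * m + 6) := ⟨_, rfl⟩
    rw [← hD] at hA2
    have hDpos : 0 < D := by omega
    have h6 : 2 * ((A + A).card : ℝ) + ((N / D : ℕ) : ℝ) ≤ 2 * N := by exact_mod_cast hA2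
    have hDr : (D : ℝ) ≤ 624 * ℓ := by
      rw [hD]; push_cast; linarith
    have hDr0 : (0 : ℝ) < D := by exact_mod_cast hDpos
    have h7 : (N : ℝ) / D - 1 ≤ ((N / D : ℕ) : ℝ) := by
      have := Nat.lt_mul_div_succ N hDpos
      have h8 : (N : ℝ) < D * (((N / D : ℕ) : ℝ) + 1) := by exact_mod_cast this
      have : (N : ℝ) / D < ((N / D : ℕ) : ℝ) + 1 := by
        rw [div_lt_iff₀ hDr0]; linarith
      linarith
    have h8 : 2 ≤ (N : ℝ) / D := by
      rw [le_div_iff₀ hDr0]; nlinarith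
    have h9 : (N : ℝ) / D / 2 ≤ ((N / D : ℕ) : ℝ) := by linarith
    have h10 : Real.exp (-ℓ ^ c₂) ≤ 1 / (4 * D) := by
      rw [Real.exp_neg, ← one_div]
      apply one_div_le_one_div_of_le (by positivity)
      nlinarith
    have h11 : (N : ℝ) * Real.exp (-ℓ ^ c₂) ≤ N * (1 / (4 * D)) := by gcongr
    have h12 : (N : ℝ) * (1 / (4 * D)) = (N : ℝ) / D / 4 := by field_simp
    rw [h12] at h11
    nlinarith
  · intro a d L hd hL1 hLN hL
    obtain ⟨i, hi, hi2⟩ := hA3 (a, d) hd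
    have h512 : 512 * m ≤ L := by
      have : (512 * (m : ℝ)) ≤ L := by
        calc 512 * (m : ℝ) ≤ 512 * (6 * ℓ) := by gcongr
          _ ≤ 10000 * ℓ ^ 2 := by nlinarith
          _ ≤ Real.exp (ℓ ^ c₄) := h4
          _ ≤ L := hL
      exact_mod_cast this
    refine ⟨i, lt_of_lt_of_le hi h512, ?_⟩
    simp only at hi2
    obtain ⟨K, hK⟩ : ∃ K : ℕ, K = Pool.Agent.Lib_helper91.Low.conv A (a + (i : ZMod N) * d) :=
      ⟨_, rfl⟩
    have hKeq : (((A ×ˢ A).filter (fun p => p.1 + p.2 = a + (i : ZMod N) * d)).card : ℝ)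
        = (K : ℝ) := by rw [hK]; rfl
    rw [hKeq]
    rw [← hK] at hi2
    have h6 : (N : ℝ) ≤ 1024 * m * (7 * m + 6) * K := by exact_mod_cast hi2
    have hK0 : (0 : ℝ) ≤ K := by positivity
    have hexp : 0 < Real.exp (-ℓ ^ c₃) := Real.exp_pos _
    have h7 : Real.exp (-ℓ ^ c₃) * (1000000 * ℓ ^ 2) ≤ 1 := by
      rw [Real.exp_neg]
      have := Real.exp_pos (ℓ ^ c₃)
      rw [inv_mul_le_iff₀ this]
      linarith
    have h9 : 1024 * ((m : ℝ) * (7 * m + 6)) ≤ 1000000 * ℓ ^ 2 := by linarith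
    have h8 : (N : ℝ) ≤ (1000000 * ℓ ^ 2) * K := by
      have e : 1024 * (m : ℝ) * (7 * m + 6) * K = (1024 * ((m : ℝ) * (7 * m + 6))) * K := by ring
      rw [e] at h6
      exact h6.trans (mul_le_mul_of_nonneg_right h9 hK0)
    have h10 : (N : ℝ) * Real.exp (-ℓ ^ c₃) ≤ ((1000000 * ℓ ^ 2) * K) * Real.exp (-ℓ ^ c₃) :=
      mul_le_mul_of_nonneg_right h8 hexp.le
    have h11 : ((1000000 * ℓ ^ 2) * K) * Real.exp (-ℓ ^ c₃)
        = (Real.exp (-ℓ ^ c₃) * (1000000 * ℓ ^ 2)) * K := by ring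
    rw [h11] at h10
    exact h10.trans ((mul_le_mul_of_nonneg_right h7 hK0).trans (le_of_eq (one_mul _)))

end Pool.Agent.Results.MP_0ddcb0_nt.LowerLevelSetAPs
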